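import Pool.Agent.H541.RP.Stm
import Pool.Graph.R_seed8.Helper213.PNT

/-! PRIMES: primes in `[b^(L-1), b^L)`. -/

set_option autoImplicit false

open Finset Filter Topology
open Pool.Agent.H541.RP

namespace Pool.Agent.H935.RP.PRIMES

theorem theta_sub {b L : ℕ} (hb : 2 ≤ b) (hL : 3 ≤ L) :
    Chebyshev.theta ((b : ℝ) ^ L) - Chebyshev.theta ((b : ℝ) ^ (L - 1)) ≤
      (((Ico (b ^ (L - 1)) (b ^ L)).filter Nat.Prime).card : ℝ) * (L * Real.log b) := by
  have e : ∀ k : ℕ, Chebyshev.theta ((b : ℝ) ^ k) =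
      ∑ p ∈ (Ioc 0 (b ^ k)).filter Nat.Prime, Real.log p := by
    intro k
    have h : ⌊(b : ℝ) ^ k⌋₊ = b ^ k := by
      rw [← Nat.cast_pow, Nat.floor_natCast]
    rw [Chebyshev.theta, h]
  rw [e, e]
  have hb1 : 1 ≤ b := by omega
  have hle : b ^ (L - 1) ≤ b ^ L := Nat.pow_le_pow_right hb1 (by omega)
  have hnp : ∀ k : ℕ, 2 ≤ k → ¬ (b ^ k).Prime := fun k hk => Nat.Prime.not_prime_pow hk
  have hsplit : (Ioc 0 (b ^ L)).filter Nat.Prime ⊆
      (Ioc 0 (b ^ (L - 1))).filter Nat.Prime ∪ (Ico (b ^ (L - 1)) (b ^ L)).filter Nat.Prime := by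
    intro p hp
    rw [mem_filter, mem_Ioc] at hp
    rw [mem_union, mem_filter, mem_filter, mem_Ioc, mem_Ico]
    by_cases h : p ≤ b ^ (L - 1)
    · exact Or.inl ⟨⟨hp.1.1, h⟩, hp.2⟩
    · refine Or.inr ⟨⟨by omega, ?_⟩, hp.2⟩
      refine lt_of_le_of_ne hp.1.2 ?_
      rintro rfl
      exact hnp L (by omega) hp.2
  have h1 : ∑ p ∈ (Ioc 0 (b ^ L)).filter Nat.Prime, Real.log p ≤
      ∑ p ∈ (Ioc 0 (b ^ (L - 1))).filter Nat.Prime, Real.log p +
        ∑ p ∈ (Ico (b ^ (L - 1)) (b ^ L)).filter Nat.Prime, Real.log p := by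
    have hnn : ∀ p : ℕ, 0 ≤ Real.log p := fun p => Real.log_natCast_nonneg p
    refine (sum_le_sum_of_subset_of_nonneg hsplit fun p _ _ => hnn p).trans ?_
    rw [← sum_union_inter]
    exact le_add_of_nonneg_right (sum_nonneg fun p _ => hnn p)
  have h2 : ∑ p ∈ (Ico (b ^ (L - 1)) (b ^ L)).filter Nat.Prime, Real.log p ≤
      (((Ico (b ^ (L - 1)) (b ^ L)).filter Nat.Prime).card : ℝ) * (L * Real.log b) := by
    rw [← nsmul_eq_mul]
    refine sum_le_card_nsmul _ _ _ fun p hp => ?_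
    rw [mem_filter, mem_Ico] at hp
    have h3 : (p : ℝ) ≤ (b : ℝ) ^ L := by exact_mod_cast hp.1.2.le
    have h4 : (0 : ℝ) < p := by exact_mod_cast hp.2.pos
    calc Real.log p ≤ Real.log ((b : ℝ) ^ L) := Real.log_le_log h4 h3
      _ = L * Real.log b := Real.log_pow _ _
  linarith

theorem t_PRIMES : S_primes := by
  intro b hb
  have hb2 : (2 : ℝ) ≤ b := by exact_mod_cast hb
  have hb0 : (0 : ℝ) < b := by linarith
  have hlog : 0 < Real.log b := Real.log_pos (by linarith)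
  have hT := Pool.Agent.Helper213.PNT.theta_div_tendsto
  have hpow : Tendsto (fun k : ℕ => (b : ℝ) ^ k) atTop atTop :=
    tendsto_pow_atTop_atTop_of_one_lt (by linarith)
  have h1 := hT.comp hpow
  have h2 : ∀ᶠ k : ℕ in atTop, 7 / 8 < Chebyshev.theta ((b : ℝ) ^ k) / (b : ℝ) ^ k ∧
      Chebyshev.theta ((b : ℝ) ^ k) / (b : ℝ) ^ k < 9 / 8 :=
    (h1.eventually (lt_mem_nhds (by norm_num : (7 / 8 : ℝ) < 1))).and
      (h1.eventually (gt_mem_nhds (by norm_num : (1 : ℝ) < 9 / 8)))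
  obtain ⟨K, hK⟩ := eventually_atTop.1 h2
  refine ⟨5 / (16 * Real.log b), K + 3, by positivity, fun L hL => ?_⟩
  have hLR : (0 : ℝ) < L := by
    have : 0 < L := by omega
    exact_mod_cast this
  have h3 := (hK L (by omega)).1
  have h4 := (hK (L - 1) (by omega)).2
  have hp : (0 : ℝ) < (b : ℝ) ^ L := by positivity
  have hq : (0 : ℝ) < (b : ℝ) ^ (L - 1) := by positivity
  rw [lt_div_iff₀ hp] at h3
  rw [div_lt_iff₀ hq] at h4
  have h5 : 2 * (b : ℝ) ^ (L - 1) ≤ (b : ℝ) ^ L := by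
    obtain ⟨k, rfl⟩ : ∃ k, L = k + 1 := ⟨L - 1, by omega⟩
    rw [Nat.add_sub_cancel, pow_succ]
    nlinarith [pow_pos hb0 k]
  have h6 := theta_sub hb (show 3 ≤ L by omega)
  have h7 : 5 / 16 * (b : ℝ) ^ L ≤
      (((Ico (b ^ (L - 1)) (b ^ L)).filter Nat.Prime).card : ℝ) * (L * Real.log b) := by
    linarith
  have h8 : 5 / (16 * Real.log b) * (b : ℝ) ^ L / L =
      (5 / 16 * (b : ℝ) ^ L) / (L * Real.log b) := by
    field_simp
  rw [h8, div_le_iff₀ (by positivity)]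
  exact h7

end Pool.Agent.H935.RP.PRIMES
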